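import Pool.Agent.helper53.AU.SpecG3

/-!
# Project au (MP_97532f_ag), module B6: case (b) is impossible
-/

namespace Pool.Agent.helper53.AU

open scoped Classical

/-- Orbit of `τ` under a subgroup `N` containing its centraliser. -/
theorem B6_count (L : Type) [Group L] [Finite L] (N : Subgroup L) (τ : L)
    (hC : ∀ g : L, g * τ = τ * g → g ∈ N) :
    Nat.card {g : L // g * τ = τ * g} * Nat.card {s : L // ∃ g ∈ N, g * τ * g⁻¹ = s} =
      Nat.card N := by
  let act : MulAction N L :=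
    { smul := fun n x => (n : L) * x * (n : L)⁻¹
      one_smul := fun x => by
        show ((1 : N) : L) * x * ((1 : N) : L)⁻¹ = x
        simp
      mul_smul := fun n m x => by
        show ((n * m : N) : L) * x * ((n * m : N) : L)⁻¹ =
          (n : L) * ((m : L) * x * (m : L)⁻¹) * (n : L)⁻¹
        simp only [Subgroup.coe_mul, mul_inv_rev, mul_assoc] }
  have hsm : ∀ (n : N) (x : L), n • x = (n : L) * x * (n : L)⁻¹ := fun _ _ => rfl
  have h1 := Subgroup.card_mul_index (MulAction.stabilizer N τ)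
  rw [MulAction.index_stabilizer] at h1
  rw [← h1]
  congr 1
  · refine Nat.card_congr
      { toFun := fun g => ⟨⟨g.1, hC g.1 g.2⟩, ?_⟩
        invFun := fun n => ⟨((n : N) : L), ?_⟩
        left_inv := fun g => rfl
        right_inv := fun n => rfl }
    · rw [MulAction.mem_stabilizer_iff, hsm]
      show g.1 * τ * g.1⁻¹ = τ
      rw [g.2, mul_inv_cancel_right]
    · have := n.2
      rw [MulAction.mem_stabilizer_iff, hsm] at this
      exact mul_inv_eq_iff_eq_mul.mp this
  · rw [← Nat.card_coe_set_eq]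
    refine Nat.card_congr (Equiv.subtypeEquivRight ?_)
    intro s
    constructor
    · rintro ⟨g, hg, rfl⟩
      exact ⟨⟨g, hg⟩, rfl⟩
    · rintro ⟨n, rfl⟩
      exact ⟨n.1, n.2, rfl⟩

/-- orbit-stabiliser for a transitive action -/
theorem B6_orbit (L Ω : Type) [Group L] [MulAction L Ω] (α : Ω)
    (h : MulAction.IsPretransitive L Ω) :
    Nat.card L = Nat.card (MulAction.stabilizer L α) * Nat.card Ω := by
  have h1 := Subgroup.card_mul_index (MulAction.stabilizer L α)
  rw [MulAction.index_stabilizer_of_transitive] at h1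
  exact h1.symm

theorem B6 (hB1 : B1_stmt) (hB2 : B2_stmt) (hB3 : B3_stmt) (hB4 : B4_stmt) (hB5 : B5_stmt)
    (hXX : XX_stmt) (hP5 : P5_stmt) (hP1 : P1_stmt) (hPLL : PLL_stmt) (hAB : AB_stmt) :
    B6_stmt := by
  intro L Ω _ _ A t hLL hD hc hT
  by_contra hne
  have := hLL.finL
  have := hLL.finΩ
  have h1 := hB1 L Ω A t hLL hD hc hT
  have h2 := hB2 L Ω A t hLL hD hc h1
  obtain ⟨h3a, h3b, h3c⟩ := hB3 L Ω A t hLL hD hc hne hT
  have h4 := hB4 L Ω A t hLL hD hc hne h3a
  obtain ⟨c, b, j, hco, hc3, hcard, _, _, hb, hst, hcen, _⟩ := hXX L Ω A hLL h4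
  have hPL := hPLL L Ω A hLL
  obtain ⟨τ, hτA, hτ⟩ := (hP1 L Ω A hPL).1
  have hP := (hP5 L Ω A hPL τ hτA hτ).1
  obtain ⟨ab1, _, ab3, _⟩ := hAB L A hLL.cyc
  obtain ⟨α⟩ := hPL.nonempty
  -- commutation in `A`
  have hAcomm : ∀ a ∈ A, ∀ b ∈ A, a * b = b * a := by
    intro a ha b hb
    have hcy := hLL.cyc
    obtain ⟨g, hg⟩ := hcy.exists_generator
    obtain ⟨m, hm⟩ := Subgroup.mem_zpowers_iff.mp (hg ⟨a, ha⟩)
    obtain ⟨n, hn⟩ := Subgroup.mem_zpowers_iff.mp (hg ⟨b, hb⟩)
    have h : (⟨a, ha⟩ : A) * ⟨b, hb⟩ = ⟨b, hb⟩ * ⟨a, ha⟩ := by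
      rw [← hm, ← hn, ← zpow_add, ← zpow_add, add_comm]
    exact congrArg Subtype.val h
  -- the normaliser
  set N : Subgroup L := Subgroup.normalizer (oddPart A : Set L) with hN
  have hmemN : ∀ g : L, (∀ a ∈ oddPart A, g * a * g⁻¹ ∈ oddPart A) → g ∈ N := by
    intro g hg
    rw [hN, Subgroup.mem_normalizer_iff]
    intro h
    refine ⟨hg h, ?_⟩
    intro hh
    -- the map `a ↦ g a g⁻¹` is an injective self-map of the finite set `oddPart A`
    let f : oddPart A → oddPart A := fun a => ⟨g * a.1 * g⁻¹, hg a.1 a.2⟩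
    have hinj : Function.Injective f := by
      intro x y hxy
      have := congrArg Subtype.val hxy
      simp only [f] at this
      exact Subtype.ext (mul_left_cancel (mul_right_cancel this))
    obtain ⟨x, hx⟩ := (Finite.injective_iff_surjective.mp hinj) ⟨g * h * g⁻¹, hh⟩
    have := congrArg Subtype.val hx
    simp only [f] at this
    have h5 : x.1 = h := mul_left_cancel (mul_right_cancel this)
    rw [← h5]
    exact x.2
  have hCN : ∀ g : L, g * τ = τ * g → g ∈ N := fun g hg => hmemN g (hP g hg)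
  have hcount := B6_count L N τ hCN
  have hset : Nat.card {s : L // ∃ g ∈ N, g * τ * g⁻¹ = s} = 3 := by
    rw [← h3b]
    refine Nat.card_congr (Equiv.subtypeEquivRight ?_)
    intro s
    have hτc : ∀ a ∈ oddPart A, τ * a = a * τ := fun a ha =>
      hAcomm τ hτA a ((ab1 a).1 ha).1
    constructor
    · rintro ⟨g, hg, rfl⟩
      refine ⟨⟨?_, ?_⟩, ?_⟩
      · calc g * τ * g⁻¹ * (g * τ * g⁻¹) = g * (τ * τ) * g⁻¹ := by group
          _ = 1 := by rw [hτ.1]; group
      · intro h
        apply hτ.2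
        have h6 : g * τ = g := by
          rw [mul_inv_eq_one] at h
          exact h
        exact mul_eq_left.mp h6
      · intro a ha
        have hg' := (Subgroup.mem_normalizer_iff.mp (N.inv_mem hg) a).1 ha
        rw [inv_inv] at hg'
        have := hτc _ hg'
        calc g * τ * g⁻¹ * a = g * (τ * (g⁻¹ * a * g)) * g⁻¹ := by group
          _ = g * (g⁻¹ * a * g * τ) * g⁻¹ := by rw [this]
          _ = a * (g * τ * g⁻¹) := by group
    · rintro ⟨hs1, hs2⟩
      exact h3c τ s hτ hs1 hτc hs2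
  have hLc := B6_orbit L Ω α hLL.trans
  rw [hst α, hcard] at hLc
  have hLN := Subgroup.card_mul_index N
  rw [hset, hcen τ hτ] at hcount
  rw [← hcount, hLc] at hLN
  have hidx : N.index = 3 ^ (c - 1) * b := by
    obtain ⟨c', rfl⟩ : ∃ c', c = c' + 1 := ⟨c - 1, by omega⟩
    have h7 : (3 ^ (j + 1) * (3 ^ (c' + 1) + 1)) * N.index =
        (3 ^ (j + 1) * (3 ^ (c' + 1) + 1)) * (3 ^ c' * b) := by
      calc (3 ^ (j + 1) * (3 ^ (c' + 1) + 1)) * N.index
          = 3 ^ j * (3 ^ (c' + 1) + 1) * 3 * N.index := by ring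
        _ = 3 ^ (c' + 1 + j) * b * (3 ^ (c' + 1) + 1) := hLN
        _ = _ := by ring
    have h8 : 0 < 3 ^ (j + 1) * (3 ^ (c' + 1) + 1) := by positivity
    simpa using Nat.eq_of_mul_eq_mul_left h8 h7
  have hE : 4 * Nat.card (oddPart A) = 3 ^ c + 1 := by
    rw [← hcard, ← hLL.cardA, ← ab3, h3a]
    ring
  rw [hidx] at h2
  exact hB5 c b (Nat.card (oddPart A)) hc3 hco hE hb h2

end Pool.Agent.helper53.AU
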