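import Pool.Agent.helper53.AU.SpecG1

/-!
# Project au (MP_97532f_ag), module BU: Burnside's theorem on groups of prime degree
(Mueller's proof)
-/

namespace Pool.Agent.helper53.AU

open scoped Classical
open Polynomial

/-- the difference operator attached to `T` -/
noncomputable def BU_D {r : ℕ} [Fact r.Prime] (T : Finset (ZMod r)) (f : (ZMod r)[X]) :
    (ZMod r)[X] :=
  (∑ t ∈ T, taylor t f) - C (T.card : ZMod r) * f

theorem BU_D_eval {r : ℕ} [Fact r.Prime] (T : Finset (ZMod r)) (f : (ZMod r)[X]) (x : ZMod r) :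
    (BU_D T f).eval x = (∑ t ∈ T, f.eval (x + t)) - (T.card : ZMod r) * f.eval x := by
  simp [BU_D, eval_finsetSum, taylor_eval]

theorem BU_D_natDegree {r : ℕ} [Fact r.Prime] (T : Finset (ZMod r)) (f : (ZMod r)[X]) :
    (BU_D T f).natDegree ≤ f.natDegree := by
  refine (natDegree_sub_le _ _).trans (max_le ?_ ?_)
  · refine natDegree_sum_le_of_forall_le _ _ ?_
    intro t _
    rw [natDegree_taylor]
  · exact (natDegree_C_mul_le _ _)

theorem BU_D_coeff {r : ℕ} [Fact r.Prime] (T : Finset (ZMod r)) (f : (ZMod r)[X]) (k : ℕ) :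
    (BU_D T f).coeff k = ∑ n ∈ Finset.range f.natDegree,
      (((n + 1 + k).choose k : ℕ) : ZMod r) * f.coeff (n + 1 + k) * ∑ t ∈ T, t ^ (n + 1) := by
  have h1 : ∀ t ∈ T, (taylor t f).coeff k = ∑ n ∈ Finset.range (f.natDegree + 1),
      (((n + k).choose k : ℕ) : ZMod r) * f.coeff (n + k) * t ^ n := by
    intro t _
    rw [taylor_coeff, eval_eq_sum_range' (n := f.natDegree + 1)]
    · refine Finset.sum_congr rfl ?_
      intro n _
      rw [hasseDeriv_coeff]
    · have := natDegree_hasseDeriv_le f k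
      omega
  rw [BU_D, coeff_sub, finsetSum_coeff, Finset.sum_congr rfl h1, Finset.sum_comm,
    Finset.sum_range_succ']
  have h2 : ∑ y ∈ T, (((0 + k).choose k : ℕ) : ZMod r) * f.coeff (0 + k) * y ^ 0 =
      (C (T.card : ZMod r) * f).coeff k := by
    simp
  rw [h2, add_sub_cancel_right]
  refine Finset.sum_congr rfl ?_
  intro n _
  rw [Finset.mul_sum]

/-- low degree polynomials are killed -/
theorem BU_D_low {r : ℕ} [Fact r.Prime] (T : Finset (ZMod r)) (f : (ZMod r)[X]) (j : ℕ)
    (hj : ∀ i, 1 ≤ i → i < j → ∑ t ∈ T, t ^ i = 0) (hf : f.natDegree < j) : BU_D T f = 0 := by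
  ext k
  rw [BU_D_coeff, coeff_zero]
  refine Finset.sum_eq_zero ?_
  intro n hn
  rw [Finset.mem_range] at hn
  rw [hj (n + 1) (by omega) (by omega), mul_zero]

/-- the leading coefficient -/
theorem BU_D_high {r : ℕ} [Fact r.Prime] (T : Finset (ZMod r)) (f : (ZMod r)[X]) (j : ℕ)
    (hj1 : 1 ≤ j) (hj : ∀ i, 1 ≤ i → i < j → ∑ t ∈ T, t ^ i = 0) (hjn : ∑ t ∈ T, t ^ j ≠ 0)
    (hf : j ≤ f.natDegree) (hfr : f.natDegree < r) : (BU_D T f).coeff (f.natDegree - j) ≠ 0 := by
  rw [BU_D_coeff, Finset.sum_eq_single (j - 1)]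
  · have e1 : j - 1 + 1 = j := by omega
    have e2 : j + (f.natDegree - j) = f.natDegree := by omega
    rw [e1, e2]
    refine mul_ne_zero (mul_ne_zero ?_ ?_) hjn
    · intro h
      rw [ZMod.natCast_eq_zero_iff] at h
      have hp : r.Prime := Fact.out
      have h3 := (Nat.choose_mul_factorial_mul_factorial
        (show f.natDegree - j ≤ f.natDegree by omega))
      have h4 : r ∣ (f.natDegree).factorial := by
        rw [← h3, mul_assoc]
        exact Dvd.dvd.mul_right h _
      exact absurd ((hp.dvd_factorial).mp h4) (by omega)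
    · intro h
      have : f = 0 := leadingCoeff_eq_zero.mp h
      rw [this, natDegree_zero] at hf
      omega
  · intro n hn hne
    rcases Nat.lt_or_ge (n + 1) j with h | h
    · rw [hj (n + 1) (by omega) h, mul_zero]
    · rw [coeff_eq_zero_of_natDegree_lt (by omega)]
      ring
  · intro h
    exfalso
    apply h
    rw [Finset.mem_range]
    omega

theorem BU_power {r : ℕ} [Fact r.Prime] (T : Finset (ZMod r)) (hT : T.Nonempty)
    (h0 : (0 : ZMod r) ∉ T) : ∃ j, 1 ≤ j ∧ j ≤ T.card ∧ ∑ t ∈ T, t ^ j ≠ 0 := by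
  by_contra hcon
  push Not at hcon
  obtain ⟨t0, ht0⟩ := hT
  let q : (ZMod r)[X] := ∏ s ∈ T.erase t0, (X - C s)
  have hqd : q.natDegree = T.card - 1 := by
    rw [natDegree_finsetProd_X_sub_C_eq_card, Finset.card_erase_of_mem ht0]
  have hpos : 0 < T.card := Finset.card_pos.mpr ⟨t0, ht0⟩
  have h1 : ∑ t ∈ T, t * q.eval t = 0 := by
    have h2 : ∀ t ∈ T, t * q.eval t = ∑ i ∈ Finset.range T.card, q.coeff i * t ^ (i + 1) := by
      intro t _
      rw [eval_eq_sum_range' (n := T.card) (by omega), Finset.mul_sum]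
      refine Finset.sum_congr rfl ?_
      intro i _
      ring
    rw [Finset.sum_congr rfl h2, Finset.sum_comm]
    refine Finset.sum_eq_zero ?_
    intro i hi
    rw [Finset.mem_range] at hi
    rw [← Finset.mul_sum, hcon (i + 1) (by omega) (by omega), mul_zero]
  rw [Finset.sum_eq_single t0] at h1
  · rcases mul_eq_zero.mp h1 with h | h
    · exact h0 (h ▸ ht0)
    · rw [eval_prod, Finset.prod_eq_zero_iff] at h
      obtain ⟨s, hs, hs2⟩ := h
      rw [eval_sub, eval_X, eval_C, sub_eq_zero] at hs2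
      exact (Finset.mem_erase.mp hs).1 hs2.symm
  · intro t ht hne
    have : q.eval t = 0 := by
      rw [eval_prod, Finset.prod_eq_zero_iff]
      exact ⟨t, Finset.mem_erase.mpr ⟨hne, ht⟩, by simp⟩
    rw [this, mul_zero]
  · intro h
    exact absurd ht0 h

/-- the core of Mueller's argument -/
theorem BU_core {r : ℕ} [Fact r.Prime] (T : Finset (ZMod r)) (hT : T.Nonempty)
    (h0 : (0 : ZMod r) ∉ T) (hcard : 2 * T.card < r) (g : ZMod r → ZMod r)
    (hg : ∀ (x : ZMod r) (m : ℕ), ∑ t ∈ T, (g (x + t)) ^ m = ∑ t ∈ T, (g x + t) ^ m) :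
    ∃ a : ZMod r, ∀ x, g (x + 1) = g x + a := by
  have hex : ∃ j, 1 ≤ j ∧ ∑ t ∈ T, t ^ j ≠ 0 := by
    obtain ⟨j, h1, _, h2⟩ := BU_power T hT h0
    exact ⟨j, h1, h2⟩
  obtain ⟨hj1, hjn⟩ := Nat.find_spec hex
  have hjmin : ∀ i, 1 ≤ i → i < Nat.find hex → ∑ t ∈ T, t ^ i = 0 := by
    intro i hi hlt
    by_contra hne
    exact Nat.find_min hex hlt ⟨hi, hne⟩
  have hjle : Nat.find hex ≤ T.card := by
    obtain ⟨j, h1, h2, h3⟩ := BU_power T hT h0
    exact (Nat.find_min' hex ⟨h1, h3⟩).trans h2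
  generalize Nat.find hex = j at hj1 hjn hjmin hjle
  clear hex
  have hcardF : Fintype.card (ZMod r) = r := ZMod.card r
  have hrpos : 0 < r := (Fact.out : r.Prime).pos
  -- the interpolation polynomial
  obtain ⟨G, hGd, hGe⟩ : ∃ G : (ZMod r)[X], G.natDegree < r ∧ ∀ x, G.eval x = g x := by
    have hinj : Set.InjOn (id : ZMod r → ZMod r) ↑(Finset.univ : Finset (ZMod r)) :=
      Set.injOn_id _
    refine ⟨Lagrange.interpolate Finset.univ id g, ?_, ?_⟩
    · have h1 := Lagrange.degree_interpolate_lt g hinj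
      rw [Finset.card_univ, hcardF] at h1
      by_cases h2 : (Lagrange.interpolate Finset.univ id) g = 0
      · rw [h2, natDegree_zero]
        exact hrpos
      · rw [degree_eq_natDegree h2] at h1
        exact_mod_cast h1
    · intro x
      exact Lagrange.eval_interpolate_at_node g hinj (Finset.mem_univ x)
  -- vanishing criterion
  have hvan : ∀ f : (ZMod r)[X], f.natDegree < r → (∀ x, f.eval x = 0) → f = 0 := by
    intro f hf hx
    refine eq_zero_of_natDegree_lt_card_of_eval_eq_zero' f Finset.univ (fun x _ => hx x) ?_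
    rw [Finset.card_univ, hcardF]
    exact hf
  -- powers of `G`
  have hpow : ∀ (m : ℕ) (x : ZMod r),
      (BU_D T (G ^ m)).eval x = (BU_D T (X ^ m : (ZMod r)[X])).eval (g x) := by
    intro m x
    rw [BU_D_eval, BU_D_eval]
    simp only [eval_pow, eval_X, hGe]
    rw [hg x m]
  have hd : G.natDegree ≤ 1 := by
    by_contra hd
    push Not at hd
    rcases Nat.lt_or_ge 1 j with hj2 | hj2
    · -- `j ≥ 2`
      have hGj : G.natDegree < j := by
        by_contra hlt
        push Not at hlt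
        have h1 : BU_D T G = 0 := by
          refine hvan _ (lt_of_le_of_lt (BU_D_natDegree T G) hGd) ?_
          intro x
          have := hpow 1 x
          rw [pow_one, pow_one, BU_D_low T X j hjmin (by rw [natDegree_X]; exact hj2)] at this
          rw [this, eval_zero]
        apply BU_D_high T G j hj1 hjmin hjn hlt hGd
        rw [h1, coeff_zero]
      set d := G.natDegree with hdd
      have hm1 : j ≤ (j + d - 1) / d * d := by
        have := Nat.div_add_mod (j + d - 1) d
        have h2 := Nat.mod_lt (j + d - 1) (show 0 < d by omega)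
        have h3 : d * ((j + d - 1) / d) = (j + d - 1) / d * d := mul_comm _ _
        omega
      have hm2 : (j + d - 1) / d * d ≤ j + d - 1 := Nat.div_mul_le_self _ _
      have hm3 : (j + d - 1) / d < j := by
        rw [Nat.div_lt_iff_lt_mul (by omega)]
        -- j + d - 1 < j * d
        have : (j - 1) * (d - 1) ≥ 1 := Nat.mul_pos (by omega) (by omega)
        obtain ⟨j', rfl⟩ : ∃ j', j = j' + 1 := ⟨j - 1, by omega⟩
        obtain ⟨d', hd'⟩ : ∃ d', d = d' + 1 := ⟨d - 1, by omega⟩
        rw [hd'] at this ⊢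
        simp only [Nat.add_sub_cancel] at this
        have e : (j' + 1) * (d' + 1) = j' * d' + j' + d' + 1 := by ring
        omega
      generalize (j + d - 1) / d = m at hm1 hm2 hm3
      have hGm : (G ^ m).natDegree = m * d := by rw [natDegree_pow]
      have h1 : BU_D T (G ^ m) = 0 := by
        refine hvan _ (lt_of_le_of_lt (BU_D_natDegree T _) (by rw [hGm]; omega)) ?_
        intro x
        rw [hpow m x, BU_D_low T (X ^ m) j hjmin (by rw [natDegree_X_pow]; exact hm3), eval_zero]
      apply BU_D_high T (G ^ m) j hj1 hjmin hjn (by rw [hGm]; exact hm1) (by rw [hGm]; omega)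
      rw [h1, coeff_zero]
    · -- `j = 1`
      have hj1' : j = 1 := by omega
      subst hj1'
      have hX : BU_D T (X : (ZMod r)[X]) = C (∑ t ∈ T, t) := by
        rw [BU_D]
        simp only [taylor_X, Finset.sum_add_distrib, Finset.sum_const, nsmul_eq_mul, map_sum]
        rw [← C_eq_natCast]
        ring
      have h1 : BU_D T G - C (∑ t ∈ T, t) = 0 := by
        refine hvan _ ?_ ?_
        · refine lt_of_le_of_lt (natDegree_sub_le _ _) (max_lt ?_ ?_)
          · exact lt_of_le_of_lt (BU_D_natDegree T G) hGd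
          · rw [natDegree_C]
            exact hrpos
        · intro x
          have := hpow 1 x
          rw [pow_one, pow_one, hX, eval_C] at this
          rw [eval_sub, this, eval_C, sub_self]
      apply BU_D_high T G 1 hj1 hjmin hjn (by omega) hGd
      rw [sub_eq_zero.mp h1, coeff_C, if_neg (by omega)]
  obtain ⟨a, b, hab⟩ := exists_eq_X_add_C_of_natDegree_le_one hd
  refine ⟨a, ?_⟩
  intro x
  rw [← hGe, ← hGe, hab]
  simp only [eval_add, eval_mul, eval_C, eval_X]
  ring

/-- the main theorem -/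
theorem BU : BU_stmt := by
  intro X Ω _ _ hfa _ _ c hr hc
  obtain ⟨r, hr0⟩ : ∃ r, Nat.card Ω = r := ⟨_, rfl⟩
  rw [hr0] at hr hc
  have : Fact r.Prime := ⟨hr⟩
  have : NeZero r := ⟨hr.ne_zero⟩
  have hcr : c ^ r = 1 := by rw [← hc]; exact pow_orderOf_eq_one c
  -- a point moved by `c`
  obtain ⟨ω₀, hω₀⟩ : ∃ ω : Ω, c • ω ≠ ω := by
    by_contra hcon
    push Not at hcon
    have h1 : c = 1 := hfa.eq_of_smul_eq_smul (fun ω => by rw [hcon ω, one_smul])
    rw [h1, orderOf_one] at hc
    exact hr.one_lt.ne hc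
  have hfix : ∀ k : ℕ, c ^ k • ω₀ = ω₀ → r ∣ k := by
    intro k hk
    by_contra hndvd
    have hcop : Nat.Coprime k r := ((Nat.Prime.coprime_iff_not_dvd hr).mpr hndvd).symm
    apply hω₀
    have h1 : c ∈ Subgroup.zpowers (c ^ k) := by
      have h2 : Nat.Coprime (orderOf c) k := by rw [hc]; exact hcop.symm
      obtain ⟨m, hm⟩ := exists_pow_eq_self_of_coprime h2.symm
      rw [Subgroup.mem_zpowers_iff]
      exact ⟨m, by exact_mod_cast hm⟩
    have h3 : (c ^ k) ∈ MulAction.stabilizer X ω₀ := hk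
    exact (Subgroup.zpowers_le.mpr h3) h1
  have hmod : ∀ a b : ℕ, a ≡ b [MOD r] → c ^ a = c ^ b := by
    intro a b hab
    rw [pow_eq_pow_iff_modEq, hc]
    exact hab
  -- coordinates
  let φ : ZMod r → Ω := fun x => c ^ x.val • ω₀
  have hφ0 : φ 0 = ω₀ := by simp [φ]
  have hφadd : ∀ x y : ZMod r, φ (x + y) = c ^ x.val • φ y := by
    intro x y
    simp only [φ]
    rw [← mul_smul, ← pow_add]
    congr 1
    apply hmod
    rw [ZMod.val_add]
    exact Nat.mod_modEq _ _
  have hφinj : Function.Injective φ := by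
    intro x y hxy
    have h1 : φ (x - y) = ω₀ := by
      have h2 : φ (y + (x - y)) = φ (y + 0) := by
        rw [add_zero, ← hxy]
        congr 1
        ring
      rw [hφadd, hφadd, hφ0] at h2
      exact MulAction.injective _ h2
    have h3 := hfix _ h1
    have h4 : (x - y).val < r := ZMod.val_lt _
    have h5 : (x - y).val = 0 := Nat.eq_zero_of_dvd_of_lt h3 h4
    rw [ZMod.val_eq_zero] at h5
    exact sub_eq_zero.mp h5
  have : Fintype Ω := Fintype.ofFinite Ω
  have hφbij : Function.Bijective φ := by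
    rw [Fintype.bijective_iff_injective_and_card]
    refine ⟨hφinj, ?_⟩
    rw [ZMod.card, ← Nat.card_eq_fintype_card, hr0]
  let e : ZMod r ≃ Ω := Equiv.ofBijective φ hφbij
  have he : ∀ x, e x = φ x := fun x => rfl
  let σ : X → ZMod r → ZMod r := fun g x => e.symm (g • φ x)
  have hσ : ∀ g x, φ (σ g x) = g • φ x := fun g x => by
    show e (e.symm (g • φ x)) = _
    rw [Equiv.apply_symm_apply]
  by_cases h2t : TwoTrans X Ω
  · exact Or.inl h2t
  right
  -- the set `T`
  obtain ⟨T, hT, hT0, hTc, hTinv⟩ : ∃ T : Finset (ZMod r), T.Nonempty ∧ (0 : ZMod r) ∉ T ∧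
      2 * T.card < r ∧ ∀ k : X, k • ω₀ = ω₀ → ∀ t ∈ T, σ k t ∈ T := by
    obtain ⟨b, d, hb, hd, hbd⟩ : ∃ b d : ZMod r, b ≠ 0 ∧ d ≠ 0 ∧
        ∀ k : X, k • ω₀ = ω₀ → k • φ b ≠ φ d := by
      by_contra hcon
      push Not at hcon
      apply h2t
      have hnorm : ∀ α β : Ω, α ≠ β → ∃ (n : ℕ) (b : ZMod r), b ≠ 0 ∧ α = c ^ n • ω₀ ∧
          β = c ^ n • φ b := by
        intro α β hab
        obtain ⟨x, rfl⟩ := hφbij.2 α
        obtain ⟨y, rfl⟩ := hφbij.2 β
        refine ⟨x.val, y - x, ?_, rfl, ?_⟩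
        · intro h
          apply hab
          rw [sub_eq_zero.mp h]
        · rw [← hφadd]
          congr 1
          ring
      intro α β γ δ h1 h2
      obtain ⟨n, b, hb, rfl, rfl⟩ := hnorm α β h1
      obtain ⟨m, d, hd, rfl, rfl⟩ := hnorm γ δ h2
      obtain ⟨k, hk1, hk2⟩ := hcon b d hb hd
      refine ⟨c ^ m * k * (c ^ n)⁻¹, ?_, ?_⟩
      · rw [mul_smul, inv_smul_smul, mul_smul, hk1]
      · rw [mul_smul, inv_smul_smul, mul_smul, hk2]
    let T₁ : Finset (ZMod r) := Finset.univ.filter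
      (fun z => ∃ k : X, k • ω₀ = ω₀ ∧ k • φ b = φ z)
    let T₂ : Finset (ZMod r) := Finset.univ.filter
      (fun z => z ≠ 0 ∧ ¬ ∃ k : X, k • ω₀ = ω₀ ∧ k • φ b = φ z)
    have h10 : (0 : ZMod r) ∉ T₁ := by
      simp only [T₁, Finset.mem_filter, Finset.mem_univ, true_and, not_exists, not_and]
      intro k hk1 hk2
      rw [hφ0, ← hk1] at hk2
      have := MulAction.injective _ hk2
      rw [← hφ0] at this
      exact hb (hφinj this)
    have h20 : (0 : ZMod r) ∉ T₂ := by
      simp [T₂]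
    have hcardsum : T₁.card + T₂.card < r := by
      have hdisj : Disjoint T₁ T₂ := by
        rw [Finset.disjoint_left]
        intro z hz1 hz2
        simp only [T₁, T₂, Finset.mem_filter, Finset.mem_univ, true_and] at hz1 hz2
        exact hz2.2 hz1
      rw [← Finset.card_union_of_disjoint hdisj]
      have hlt : T₁ ∪ T₂ ⊂ (Finset.univ : Finset (ZMod r)) := by
        rw [Finset.ssubset_univ_iff]
        intro h
        have : (0 : ZMod r) ∈ T₁ ∪ T₂ := by rw [h]; exact Finset.mem_univ _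
        rcases Finset.mem_union.mp this with h | h
        · exact h10 h
        · exact h20 h
      have := Finset.card_lt_card hlt
      rw [Finset.card_univ, ZMod.card] at this
      exact this
    have hinv1 : ∀ k : X, k • ω₀ = ω₀ → ∀ t ∈ T₁, σ k t ∈ T₁ := by
      intro k hk t ht
      simp only [T₁, Finset.mem_filter, Finset.mem_univ, true_and] at ht ⊢
      obtain ⟨l, hl1, hl2⟩ := ht
      refine ⟨k * l, ?_, ?_⟩
      · rw [mul_smul, hl1, hk]
      · rw [mul_smul, hl2, hσ]
    have hinv2 : ∀ k : X, k • ω₀ = ω₀ → ∀ t ∈ T₂, σ k t ∈ T₂ := by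
      intro k hk t ht
      simp only [T₂, Finset.mem_filter, Finset.mem_univ, true_and] at ht ⊢
      obtain ⟨ht0, ht⟩ := ht
      refine ⟨?_, ?_⟩
      · intro h
        have h1 := hσ k t
        rw [h, hφ0, ← hk] at h1
        rw [← hφ0] at h1
        exact ht0 (hφinj (MulAction.injective _ h1)).symm
      · rintro ⟨l, hl1, hl2⟩
        apply ht
        have hk' : k⁻¹ • ω₀ = ω₀ := by rw [inv_smul_eq_iff, hk]
        refine ⟨k⁻¹ * l, ?_, ?_⟩
        · rw [mul_smul, hl1, hk']
        · rw [mul_smul, hl2, hσ, inv_smul_smul]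
    rcases Nat.lt_or_ge T₁.card T₂.card with h | h
    · refine ⟨T₁, ⟨b, ?_⟩, h10, by omega, hinv1⟩
      simp only [T₁, Finset.mem_filter, Finset.mem_univ, true_and]
      exact ⟨1, one_smul _ _, one_smul _ _⟩
    · refine ⟨T₂, ⟨d, ?_⟩, h20, by omega, hinv2⟩
      simp only [T₂, Finset.mem_filter, Finset.mem_univ, true_and]
      refine ⟨hd, ?_⟩
      rintro ⟨k, hk1, hk2⟩
      exact hbd k hk1 hk2
  intro g
  -- the key identity
  have hkey : ∀ (x : ZMod r) (m : ℕ),
      ∑ t ∈ T, (σ g (x + t)) ^ m = ∑ t ∈ T, (σ g x + t) ^ m := by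
    intro x m
    let k : X := (c ^ (σ g x).val)⁻¹ * g * c ^ x.val
    have hk : k • ω₀ = ω₀ := by
      show ((c ^ (σ g x).val)⁻¹ * g * c ^ x.val) • ω₀ = ω₀
      rw [mul_smul, mul_smul]
      have h1 : g • c ^ x.val • ω₀ = c ^ (σ g x).val • ω₀ := (hσ g x).symm
      rw [h1, inv_smul_smul]
    have hk2 : ∀ t, σ g (x + t) = σ g x + σ k t := by
      intro t
      apply hφinj
      rw [hσ, hφadd, hφadd, hσ]
      show _ = c ^ (σ g x).val • ((c ^ (σ g x).val)⁻¹ * g * c ^ x.val) • φ t
      rw [mul_smul, mul_smul, smul_inv_smul]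
    simp only [hk2]
    have hkinj : Function.Injective (σ k) := by
      intro a b hab
      have h1 := hσ k a
      rw [hab, hσ] at h1
      exact (hφinj (MulAction.injective _ h1)).symm
    have himg : T.image (σ k) = T := by
      apply Finset.eq_of_subset_of_card_le
      · intro z hz
        obtain ⟨t, ht, rfl⟩ := Finset.mem_image.mp hz
        exact hTinv k hk t ht
      · rw [Finset.card_image_of_injective _ hkinj]
    conv_rhs => rw [← himg]
    rw [Finset.sum_image (fun a _ b _ h => hkinj h)]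
  obtain ⟨a, ha⟩ := BU_core T hT hT0 hTc (σ g) hkey
  have hfin : g * c * g⁻¹ = c ^ a.val := by
    apply hfa.eq_of_smul_eq_smul
    intro ω
    obtain ⟨x, hx⟩ := hφbij.2 (g⁻¹ • ω)
    have hω : ω = g • φ x := by rw [hx, smul_inv_smul]
    have h1 : c • φ x = φ (1 + x) := by
      have h2 := hφadd 1 x
      have h3 : c ^ (1 : ZMod r).val = c ^ 1 := by
        apply hmod
        rw [ZMod.val_one_eq_one_mod]
        exact Nat.mod_modEq _ _
      rw [h2, h3, pow_one]
    rw [mul_smul, mul_smul, ← hx, h1, hω, ← hσ, ← hσ, add_comm 1 x, ha x, add_comm, hφadd]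
  rw [hfin]
  exact Subgroup.npow_mem_zpowers c _

end Pool.Agent.helper53.AU
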